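import Pool.Agent.K1H53.EX.Plan

/-!
# Piece EX-ABS (S_ABS) for helper53
-/

set_option autoImplicit false

open MeasureTheory Filter Topology

namespace Pool.Agent.K1H65.EX

open Pool.Agent.K1H53.EX

section

variable {S : Type} [Fintype S] [TopologicalSpace S] [DiscreteTopology S]
  [MeasurableSpace S] [BorelSpace S]

theorem integrable_cm (ν : Measure (ℤ → S)) [IsFiniteMeasure ν] (f : C(ℤ → S, ℝ)) :
    Integrable (fun η => f η) ν :=
  Integrable.of_bound f.continuous.aestronglyMeasurable ‖f‖
    (Eventually.of_forall fun η => f.norm_coe_le_norm η)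

end

theorem t_ABS : S_ABS := by
  intro S _ _ _ _ _ _ a p P ν B hP hν hinv hB hT t ht f
  have hvan : ∀ h : C(ℤ → S, ℝ), (∀ ω ∈ B, h ω = 0) → ∀ ω ∈ B, P t h ω = 0 := by
    intro h hh
    refine hP.conv {h | ∀ ω ∈ B, h ω = 0} ?_ ?_ ?_ t ht h hh
    · simp only [Set.ofPred_forall]
      refine isClosed_iInter fun ω => isClosed_iInter fun _ => ?_
      exact isClosed_eq (continuous_eval_const ω) continuous_const
    · intro g hg g' hg' c c' _ _ _ ω hω
      change c * g ω + c' * g' ω = 0
      rw [hg ω hω, hg' ω hω, mul_zero, mul_zero, add_zero]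
    · intro g hg u v ω hω
      exact hg _ (hT ω hω u v)
  have hpos : ∀ h : C(ℤ → S, ℝ), (∀ ω, 0 ≤ h ω) → ∀ ω, 0 ≤ P t h ω := by
    intro h hh
    refine hP.conv {h | ∀ ω, 0 ≤ h ω} ?_ ?_ ?_ t ht h hh
    · simp only [Set.ofPred_forall]
      refine isClosed_iInter fun ω => ?_
      exact isClosed_le continuous_const (continuous_eval_const ω)
    · intro g hg g' hg' c c' hc hc' _ ω
      change 0 ≤ c * g ω + c' * g' ω
      have := hg ω
      have := hg' ω
      positivity
    · intro g hg u v ω
      exact hg _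
  have hconst : ∀ c : ℝ, P t (ContinuousMap.const _ c) = ContinuousMap.const _ c := by
    intro c
    refine hP.conv {ContinuousMap.const _ c} isClosed_singleton (convex_singleton _) ?_ t ht _ rfl
    intro g hg u v
    rw [Set.mem_singleton_iff] at hg ⊢
    rw [hg]
    rfl
  have key : ∀ f : C(ℤ → S, ℝ), (∀ ω, 0 ≤ f ω) → ∫ η in B, P t f η ∂ν ≤ ∫ η in B, f η ∂ν := by
    intro f hf
    let F : ℕ → C(ℤ → S, ℝ) := fun n =>
      ⟨fun ω => (hB.apprSeq n ω : ℝ), NNReal.continuous_coe.comp (hB.apprSeq n).continuous⟩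
    have hF0 : ∀ n ω, 0 ≤ F n ω := fun n ω => NNReal.coe_nonneg _
    have hF1 : ∀ n ω, F n ω ≤ 1 := fun n ω => by
      have := HasOuterApproxClosed.apprSeq_apply_le_one hB n ω
      exact_mod_cast this
    have hFB : ∀ n, ∀ ω ∈ B, F n ω = 1 := fun n ω hω => by
      have := HasOuterApproxClosed.apprSeq_apply_eq_one hB n hω
      change ((hB.apprSeq n ω : NNReal) : ℝ) = 1
      rw [this]
      rfl
    have h1 : ∀ n, ∫ η in B, P t f η ∂ν ≤ ∫ η, F n η * f η ∂ν := by
      intro n
      have h2 : ∀ ω ∈ B, P t f ω = P t (F n * f) ω := by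
        intro ω hω
        have := hvan (f - F n * f) (fun ω hω => by
          change f ω - F n ω * f ω = 0
          rw [hFB n ω hω]
          ring) ω hω
        rw [map_sub] at this
        exact sub_eq_zero.mp this
      calc ∫ η in B, P t f η ∂ν = ∫ η in B, P t (F n * f) η ∂ν :=
            setIntegral_congr_fun hB.measurableSet h2
        _ ≤ ∫ η, P t (F n * f) η ∂ν :=
            setIntegral_le_integral (integrable_cm ν _) (Eventually.of_forall
              (hpos _ fun ω => mul_nonneg (hF0 n ω) (hf ω)))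
        _ = ∫ η, (F n * f) η ∂ν := hinv t ht _
        _ = _ := rfl
    have h3 : Tendsto (fun n => ∫ η, F n η * f η ∂ν) atTop (𝓝 (∫ η in B, f η ∂ν)) := by
      rw [← integral_indicator hB.measurableSet]
      refine tendsto_integral_of_dominated_convergence (fun _ => ‖f‖) ?_ (integrable_const _) ?_ ?_
      · intro n
        exact ((F n).continuous.mul f.continuous).aestronglyMeasurable
      · intro n
        refine Eventually.of_forall fun ω => ?_
        rw [norm_mul]
        refine (mul_le_of_le_one_left (norm_nonneg _) ?_).trans (f.norm_coe_le_norm ω)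
        rw [Real.norm_of_nonneg (hF0 n ω)]
        exact hF1 n ω
      · refine Eventually.of_forall fun ω => ?_
        have h4 := (tendsto_pi_nhds.mp (HasOuterApproxClosed.tendsto_apprSeq hB)) ω
        have h5 : Tendsto (fun n => F n ω) atTop
            (𝓝 ((B.indicator (fun _ => (1 : NNReal)) ω : NNReal) : ℝ)) :=
          (NNReal.continuous_coe.tendsto _).comp h4
        have h6 := h5.mul_const (f ω)
        convert h6 using 2
        by_cases hω : ω ∈ B
        · rw [Set.indicator_of_mem hω, Set.indicator_of_mem hω]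
          simp
        · rw [Set.indicator_of_notMem hω, Set.indicator_of_notMem hω]
          simp
    exact ge_of_tendsto' h3 h1
  have hc : ∀ g : C(ℤ → S, ℝ), ∀ c : ℝ, ∫ η in B, (ContinuousMap.const (ℤ → S) c + g : C(ℤ → S, ℝ)) η ∂ν =
      ν.real B * c + ∫ η in B, g η ∂ν := by
    intro g c
    have : ∀ η, (ContinuousMap.const (ℤ → S) c + g : C(ℤ → S, ℝ)) η = c + g η := fun _ => rfl
    simp_rw [this]
    rw [integral_add (integrable_const _) (integrable_cm _ _), integral_const]
    simp
  have hnorm : ∀ ω, |f ω| ≤ ‖f‖ := fun ω => f.norm_coe_le_norm ω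
  have e1 := key (ContinuousMap.const _ ‖f‖ + f) (fun ω => by
    change 0 ≤ ‖f‖ + f ω
    have := neg_abs_le (f ω)
    have := hnorm ω
    linarith)
  have e2 := key (ContinuousMap.const _ ‖f‖ + -f) (fun ω => by
    change 0 ≤ ‖f‖ + -f ω
    have := le_abs_self (f ω)
    have := hnorm ω
    linarith)
  rw [map_add, hconst, hc, hc] at e1 e2
  rw [map_neg] at e2
  have e3 : ∫ η in B, (-P t f) η ∂ν = -∫ η in B, P t f η ∂ν := integral_neg _
  have e4 : ∫ η in B, (-f) η ∂ν = -∫ η in B, f η ∂ν := integral_neg _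
  rw [e3, e4] at e2
  linarith

end Pool.Agent.K1H65.EX
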