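import Pool.Agent.K1H53.EX.Plan

/-!
# Piece EX-MARG (S_MARG) for helper53
-/

set_option autoImplicit false
set_option linter.unusedSectionVars false

open MeasureTheory Filter Topology

namespace Pool.Agent.K1H65.EX

open Pool.Agent.K1H53.EX

/-- intertwining -/
theorem ex_intertwine {V W : Type} [NormedAddCommGroup V] [NormedSpace ℝ V] [CompleteSpace V]
    [NormedAddCommGroup W] [NormedSpace ℝ W] [CompleteSpace W] (L : V →L[ℝ] V) (L' : W →L[ℝ] W)
    (J : V →L[ℝ] W) (h : ∀ v, L' (J v) = J (L v)) (t : ℝ) (f : V) :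
    ex L' t (J f) = J (ex L t f) := by
  have hd : ∀ s : ℝ, HasDerivAt (fun s => ex L' (t - s) (J (ex L s f))) 0 s := by
    intro s
    have h1 : HasDerivAt (fun s => ex L' (t - s)) (-(ex L' (t - s) * L')) s := by
      have h2 := (ex_deriv L' (t - s)).scomp s ((hasDerivAt_id s).const_sub t)
      rw [neg_one_smul] at h2
      exact h2
    have h3 : HasDerivAt (fun s => J (ex L s f)) (J (L (ex L s f))) s :=
      J.hasFDerivAt.comp_hasDerivAt s (ex_apply_deriv' L f s)
    refine (h1.clm_apply h3).congr_deriv ?_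
    rw [← h (ex L s f)]
    change -(ex L' (t - s) (L' (J (ex L s f)))) + ex L' (t - s) (L' (J (ex L s f))) = 0
    rw [neg_add_cancel]
  have hc : ∀ s s' : ℝ, ex L' (t - s) (J (ex L s f)) = ex L' (t - s') (J (ex L s' f)) := by
    intro s s'
    exact is_const_of_deriv_eq_zero (fun s => (hd s).differentiableAt) (fun s => (hd s).deriv) s s'
  have h0 := hc 0 t
  rw [sub_zero, sub_self, ex_zero, ex_zero] at h0
  exact h0

section

variable {S S' : Type} [Fintype S] [DecidableEq S] [TopologicalSpace S] [DiscreteTopology S]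
  [MeasurableSpace S] [BorelSpace S] [Fintype S'] [DecidableEq S'] [TopologicalSpace S']
  [DiscreteTopology S'] [MeasurableSpace S'] [BorelSpace S']

/-- Composition with a continuous map, as a bounded operator. -/
noncomputable def compJ (h : C(ℤ → S', ℤ → S)) : C(ℤ → S, ℝ) →L[ℝ] C(ℤ → S', ℝ) :=
  ⟨(ContinuousMap.compRightAlgHom ℝ ℝ h).toLinearMap,
    ContinuousMap.compRightAlgHom_continuous ℝ ℝ h⟩

theorem compJ_apply (h : C(ℤ → S', ℤ → S)) (f : C(ℤ → S, ℝ)) : compJ h f = f.comp h := rfl

/-- the translation of pairs of sites -/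
def trl (c : ℤ) : ℤ × ℤ ≃ ℤ × ℤ where
  toFun q := (q.1 + c, q.2 + c)
  invFun q := (q.1 - c, q.2 - c)
  left_inv q := by ext <;> simp
  right_inv q := by ext <;> simp

theorem tendsto_trl (c : ℤ) :
    Tendsto (fun F : Finset (ℤ × ℤ) => F.map (trl c).toEmbedding) atTop atTop := by
  rw [tendsto_atTop_atTop]
  intro b
  refine ⟨b.map (trl c).symm.toEmbedding, fun F hF => ?_⟩
  intro q hq
  rw [Finset.mem_map]
  refine ⟨(trl c).symm q, hF (Finset.mem_map.mpr ⟨q, hq, rfl⟩), ?_⟩
  exact (trl c).apply_symm_apply q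

theorem general (a : S × S → S × S) (a' : S' × S' → S' × S') (p : ℤ → ℝ)
    (P : ℝ → C(ℤ → S, ℝ) →L[ℝ] C(ℤ → S, ℝ))
    (P' : ℝ → C(ℤ → S', ℝ) →L[ℝ] C(ℤ → S', ℝ))
    (hP : IsSG a p P) (hP' : IsSG a' p P') (φ : C(ℤ → S', ℤ → S)) (c : ℤ)
    (hφ : ∀ u v η, φ (T a' u v η) = T a (u + c) (v + c) (φ η)) (t : ℝ) (ht : 0 ≤ t)
    (f : C(ℤ → S, ℝ)) : P' t (f.comp φ) = (P t f).comp φ := by
  have h1 : ∀ (F : Finset (ℤ × ℤ)) (g : C(ℤ → S, ℝ)), LF a' p F (compJ φ g) =
      compJ φ (LF a p (F.map (trl c).toEmbedding) g) := by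
    intro F g
    unfold LF
    rw [Finset.sum_map, sum_apply, sum_apply, map_sum]
    refine Finset.sum_congr rfl fun q _ => ?_
    ext η
    change p (q.2 - q.1) * (g (φ (T a' q.1 q.2 η)) - g (φ η)) =
      p ((q.2 + c) - (q.1 + c)) * (g (T a (q.1 + c) (q.2 + c) (φ η)) - g (φ η))
    rw [hφ, add_sub_add_right_eq_sub]
  have h2 : ∀ F : Finset (ℤ × ℤ), PF a' p F t (f.comp φ) =
      compJ φ (PF a p (F.map (trl c).toEmbedding) t f) := fun F =>
    ex_intertwine _ _ (compJ φ) (h1 F) t f
  have h3 : Tendsto (fun F : Finset (ℤ × ℤ) => PF a' p F t (f.comp φ)) atTop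
      (𝓝 (P' t (f.comp φ))) := hP'.lim t ht _
  have h4 : Tendsto (fun F : Finset (ℤ × ℤ) => compJ φ (PF a p (F.map (trl c).toEmbedding) t f))
      atTop (𝓝 (compJ φ (P t f))) :=
    ((compJ φ).continuous.tendsto _).comp ((hP.lim t ht f).comp (tendsto_trl c))
  exact tendsto_nhds_unique (h3.congr h2) h4

end

theorem t_MARG : S_MARG := by
  intro p P Q hP hQ t ht f
  refine ⟨general a1 a2 p P Q hP hQ π1 0 ?_ t ht f, general a1 a2 p P Q hP hQ π2 0 ?_ t ht f,
    general a1 a1 p P P hP hP sh 1 ?_ t ht f, general a1 a1 p P P hP hP shi (-1) ?_ t ht f⟩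
  · intro u v η
    rw [add_zero, add_zero]
    funext x
    unfold T
    by_cases h : u = v
    · rw [if_pos h, if_pos h]
    · rw [if_neg h, if_neg h]
      change (Function.update (Function.update η u _) v _ x).1 = _
      by_cases hv : x = v
      · subst hv
        simp [a2, π1]
      · by_cases hu : x = u
        · subst hu
          simp [a2, π1, h]
        · simp [a2, π1, hu, hv]
  · intro u v η
    rw [add_zero, add_zero]
    funext x
    unfold T
    by_cases h : u = v
    · rw [if_pos h, if_pos h]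
    · rw [if_neg h, if_neg h]
      change (Function.update (Function.update η u _) v _ x).2 = _
      by_cases hv : x = v
      · subst hv
        simp [a2, π2]
      · by_cases hu : x = u
        · subst hu
          simp [a2, π2, h]
        · simp [a2, π2, hu, hv]
  · intro u v η
    funext x
    unfold T
    by_cases h : u = v
    · rw [if_pos h, if_pos (by omega)]
    · rw [if_neg h, if_neg (by omega)]
      change (Function.update (Function.update η u _) v _ (x - 1)) = _
      by_cases hv : x = v + 1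
      · subst hv
        simp [sh]
      · by_cases hu : x = u + 1
        · subst hu
          simp [sh, h]
        · have hv' : x - 1 ≠ v := by omega
          have hu' : x - 1 ≠ u := by omega
          simp [sh, hu, hv, hu', hv']
  · intro u v η
    funext x
    unfold T
    by_cases h : u = v
    · rw [if_pos h, if_pos (by omega)]
    · rw [if_neg h, if_neg (by omega)]
      change (Function.update (Function.update η u _) v _ (x + 1)) = _
      by_cases hv : x = v + -1
      · subst hv
        simp [shi]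
      · by_cases hu : x = u + -1
        · subst hu
          simp [shi, h]
        · have hv' : x + 1 ≠ v := by omega
          have hu' : x + 1 ≠ u := by omega
          simp [shi, hu, hv, hu', hv']

end Pool.Agent.K1H65.EX
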